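import Mathlib

/-!
# Linearly ordered spaces and stationary subsets of `ω₁`
-/

namespace Pool.Agent.H458R3.Lots

open Cardinal Set

universe u

/-- A LOTS embedding: an injective, order preserving map which is continuous for the open interval
topologies. -/
def IsLOTSEmbedding {L U : Type u} [LinearOrder L] [LinearOrder U] (f : L → U) : Prop :=
  Function.Injective f ∧ (∀ x y, x ≤ y → f x ≤ f y) ∧
    @Continuous L U (Preorder.topology L) (Preorder.topology U) f

theorem IsLOTSEmbedding.strictMono {L U : Type u} [LinearOrder L] [LinearOrder U] {f : L → U}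
    (hf : IsLOTSEmbedding f) : StrictMono f :=
  Monotone.strictMono_of_injective (fun x y h => hf.2.1 x y h) hf.1

theorem IsLOTSEmbedding.isLUB {L U : Type u} [LinearOrder L] [LinearOrder U] {f : L → U}
    (hf : IsLOTSEmbedding f) {T : Set L} {x : L} (hT : T.Nonempty) (hx : IsLUB T x) :
    IsLUB (f '' T) (f x) := by
  let : TopologicalSpace L := Preorder.topology L
  let : TopologicalSpace U := Preorder.topology U
  have : OrderTopology L := ⟨rfl⟩
  have : OrderTopology U := ⟨rfl⟩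
  have hc : Continuous f := hf.2.2
  exact IsLUB.isLUB_of_tendsto (fun x _ y _ h => hf.2.1 x y h) hx hT
    (hc.continuousAt.continuousWithinAt)

theorem IsLOTSEmbedding.isGLB {L U : Type u} [LinearOrder L] [LinearOrder U] {f : L → U}
    (hf : IsLOTSEmbedding f) {T : Set L} {x : L} (hT : T.Nonempty) (hx : IsGLB T x) :
    IsGLB (f '' T) (f x) := by
  let : TopologicalSpace L := Preorder.topology L
  let : TopologicalSpace U := Preorder.topology U
  have : OrderTopology L := ⟨rfl⟩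
  have : OrderTopology U := ⟨rfl⟩
  have hc : Continuous f := hf.2.2
  exact IsGLB.isGLB_of_tendsto (fun x _ y _ h => hf.2.1 x y h) hx hT
    (hc.continuousAt.continuousWithinAt)

theorem IsLOTSEmbedding.comp {L M U : Type u} [LinearOrder L] [LinearOrder M] [LinearOrder U]
    {f : L → M} {g : M → U} (hg : IsLOTSEmbedding g) (hf : IsLOTSEmbedding f) :
    IsLOTSEmbedding (g ∘ f) := by
  refine ⟨hg.1.comp hf.1, fun x y h => hg.2.1 _ _ (hf.2.1 _ _ h), ?_⟩
  let : TopologicalSpace L := Preorder.topology L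
  let : TopologicalSpace M := Preorder.topology M
  let : TopologicalSpace U := Preorder.topology U
  exact Continuous.comp hg.2.2 hf.2.2

/-- the initial segment of an ordered sum -/
theorem isLOTSEmbedding_inl (L X : Type u) [LinearOrder L] [LinearOrder X] :
    IsLOTSEmbedding (fun x : L => (toLex (Sum.inl x) : L ⊕ₗ X)) := by
  refine ⟨fun x y h => Sum.inl_injective (toLex.injective h), fun x y h => ?_, ?_⟩
  · exact Sum.Lex.inl_le_inl_iff.2 h
  · let : TopologicalSpace L := Preorder.topology L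
    have : OrderTopology L := ⟨rfl⟩
    refine continuous_generateFrom_iff.2 ?_
    rintro s ⟨a, rfl | rfl⟩
    · rcases h : ofLex a with b | b
      · have : (fun x : L => (toLex (Sum.inl x) : L ⊕ₗ X)) ⁻¹' Ioi a = Ioi b := by
          ext x
          have ha : a = toLex (Sum.inl b) := by rw [← h]; rfl
          rw [ha]
          exact Sum.Lex.inl_lt_inl_iff
        rw [this]; exact isOpen_Ioi
      · have : (fun x : L => (toLex (Sum.inl x) : L ⊕ₗ X)) ⁻¹' Ioi a = ∅ := by
          ext x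
          have ha : a = toLex (Sum.inr b) := by rw [← h]; rfl
          rw [ha]
          simp only [mem_preimage, mem_Ioi, mem_empty_iff_false, iff_false]
          exact Sum.Lex.not_inr_lt_inl
        rw [this]; exact isOpen_empty
    · rcases h : ofLex a with b | b
      · have : (fun x : L => (toLex (Sum.inl x) : L ⊕ₗ X)) ⁻¹' Iio a = Iio b := by
          ext x
          have ha : a = toLex (Sum.inl b) := by rw [← h]; rfl
          rw [ha]
          exact Sum.Lex.inl_lt_inl_iff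
        rw [this]; exact isOpen_Iio
      · have : (fun x : L => (toLex (Sum.inl x) : L ⊕ₗ X)) ⁻¹' Iio a = Set.univ := by
          ext x
          have ha : a = toLex (Sum.inr b) := by rw [← h]; rfl
          rw [ha]
          refine ⟨fun _ => mem_univ _, fun _ => ?_⟩
          show (toLex (Sum.inl x) : L ⊕ₗ X) < toLex (Sum.inr b)
          exact Sum.Lex.inl_lt_inr _ _
        rw [this]; exact isOpen_univ

/-- If every LOTS of cardinality `κ` embeds into `U`, then so does every smaller one. -/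
theorem embed_of_le {U : Type u} [LinearOrder U] {κ : Cardinal.{u}} (hκ : ℵ₀ ≤ κ)
    (hU : ∀ (L : Type u) [LinearOrder L], #L = κ → ∃ f : L → U, IsLOTSEmbedding f)
    (L : Type u) [LinearOrder L] (hL : #L ≤ κ) : ∃ f : L → U, IsLOTSEmbedding f := by
  obtain ⟨f, hf⟩ := hU (L ⊕ₗ κ.ord.ToType) (by
    have h1 : #(L ⊕ₗ κ.ord.ToType) = #(L ⊕ κ.ord.ToType) := Cardinal.mk_congr ofLex
    rw [h1, Cardinal.mk_sum, lift_id, lift_id, Cardinal.mk_ord_toType]
    exact Cardinal.add_eq_right hκ hL)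
  exact ⟨_, hf.comp (isLOTSEmbedding_inl L _)⟩

/-! ### The orders `L_S` -/

section

variable {W : Type u} [LinearOrder W]

/-- The points `(a, ⊤)` for `a : WithTop W`, and the points `(a, d)` with `a ∈ S` or `d ∈ D`; the
first coordinate is ordered backwards. -/
def Car (S D : Set W) : Set ((WithTop W)ᵒᵈ ×ₗ WithTop W) :=
  {p | (ofLex p).2 = ⊤ ∨ ∃ a d : W, p = toLex (OrderDual.toDual (a : WithTop W),
    (d : WithTop W)) ∧ (a ∈ S ∨ d ∈ D)}

variable {S D : Set W}

/-- the top point of the block `a` -/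
def yp (S D : Set W) (a : WithTop W) : Car S D := ⟨toLex (OrderDual.toDual a, ⊤), Or.inl rfl⟩

/-- the other points of the block `a` -/
def qp (S D : Set W) (a d : W) (h : a ∈ S ∨ d ∈ D) : Car S D :=
  ⟨toLex (OrderDual.toDual (a : WithTop W), (d : WithTop W)), Or.inr ⟨a, d, rfl, h⟩⟩

omit [LinearOrder W] in
theorem car_cases (p : Car S D) : (∃ a, p = yp S D a) ∨ ∃ a d h, p = qp S D a d h := by
  obtain ⟨p, hp⟩ := p
  rcases hp with h | ⟨a, d, rfl, h⟩
  · left
    refine ⟨OrderDual.ofDual (ofLex p).1, Subtype.ext ?_⟩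
    show p = toLex ((ofLex p).1, ⊤)
    rw [← h]
    rfl
  · exact Or.inr ⟨a, d, h, rfl⟩

theorem yp_le_yp {a b : WithTop W} : yp S D a ≤ yp S D b ↔ b ≤ a := by
  show (toLex (OrderDual.toDual a, (⊤ : WithTop W)) : (WithTop W)ᵒᵈ ×ₗ WithTop W) ≤
    toLex (OrderDual.toDual b, ⊤) ↔ b ≤ a
  rw [Prod.Lex.toLex_le_toLex]
  simp [le_iff_lt_or_eq, eq_comm]

theorem yp_lt_yp {a b : WithTop W} : yp S D a < yp S D b ↔ b < a := by
  rw [← not_le, yp_le_yp, not_le]

theorem qp_le_yp {a d : W} (h : a ∈ S ∨ d ∈ D) {b : WithTop W} :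
    qp S D a d h ≤ yp S D b ↔ b ≤ a := by
  show (toLex (OrderDual.toDual (a : WithTop W), (d : WithTop W)) :
    (WithTop W)ᵒᵈ ×ₗ WithTop W) ≤ toLex (OrderDual.toDual b, ⊤) ↔ _
  rw [Prod.Lex.toLex_le_toLex]
  simp [le_iff_lt_or_eq, eq_comm]

theorem yp_lt_qp {a d : W} (h : a ∈ S ∨ d ∈ D) {b : WithTop W} :
    yp S D b < qp S D a d h ↔ a < b := by
  rw [← not_le, qp_le_yp, not_le]

theorem yp_le_qp {a d : W} (h : a ∈ S ∨ d ∈ D) {b : WithTop W} :
    yp S D b ≤ qp S D a d h ↔ a < b := by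
  show (toLex (OrderDual.toDual b, (⊤ : WithTop W)) : (WithTop W)ᵒᵈ ×ₗ WithTop W) ≤
    toLex (OrderDual.toDual (a : WithTop W), (d : WithTop W)) ↔ _
  rw [Prod.Lex.toLex_le_toLex]
  simp

theorem qp_lt_yp {a d : W} (h : a ∈ S ∨ d ∈ D) {b : WithTop W} :
    qp S D a d h < yp S D b ↔ b ≤ a := by
  rw [← not_le, yp_le_qp, not_lt]

theorem qp_le_qp {a d b e : W} (h : a ∈ S ∨ d ∈ D) (h' : b ∈ S ∨ e ∈ D) :
    qp S D a d h ≤ qp S D b e h' ↔ b < a ∨ a = b ∧ d ≤ e := by
  show (toLex (OrderDual.toDual (a : WithTop W), (d : WithTop W)) :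
    (WithTop W)ᵒᵈ ×ₗ WithTop W) ≤ toLex (OrderDual.toDual (b : WithTop W), (e : WithTop W)) ↔ _
  rw [Prod.Lex.toLex_le_toLex]
  simp

theorem qp_lt_qp {a d b e : W} (h : a ∈ S ∨ d ∈ D) (h' : b ∈ S ∨ e ∈ D) :
    qp S D a d h < qp S D b e h' ↔ b < a ∨ a = b ∧ d < e := by
  show (toLex (OrderDual.toDual (a : WithTop W), (d : WithTop W)) :
    (WithTop W)ᵒᵈ ×ₗ WithTop W) < toLex (OrderDual.toDual (b : WithTop W), (e : WithTop W)) ↔ _
  rw [Prod.Lex.toLex_lt_toLex]
  simp

theorem isLUB_yp (a d0 : W) (h0 : a ∈ S ∨ d0 ∈ D)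
    (hmax : ∀ d, (a ∈ S ∨ d ∈ D) → ∃ e, d < e ∧ (a ∈ S ∨ e ∈ D)) :
    IsLUB {z | ∃ d h, z = qp S D a d h} (yp S D a) := by
  constructor
  · rintro z ⟨d, h, rfl⟩
    exact (qp_le_yp h).2 le_rfl
  · intro p hp
    rcases car_cases p with ⟨b, rfl⟩ | ⟨b, e, h, rfl⟩
    · rw [yp_le_yp]
      exact (qp_le_yp h0).1 (hp ⟨d0, h0, rfl⟩)
    · rw [yp_le_qp]
      have h1 := hp ⟨d0, h0, rfl⟩
      rw [qp_le_qp] at h1
      rcases h1 with h1 | ⟨rfl, _⟩
      · exact WithTop.coe_lt_coe.2 h1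
      · exfalso
        obtain ⟨e', he', h'⟩ := hmax e h
        have h2 := hp ⟨e', h', rfl⟩
        rw [qp_le_qp] at h2
        rcases h2 with h2 | ⟨_, h2⟩
        · exact lt_irrefl _ h2
        · exact absurd he' (not_lt.2 h2)

theorem isGLB_yp (a : WithTop W) (hlim : ∀ b < a, ∃ c : WithTop W, b < c ∧ c < a) :
    IsGLB (yp S D '' Iio a) (yp S D a) := by
  constructor
  · rintro _ ⟨b, hb, rfl⟩
    exact yp_le_yp.2 (le_of_lt hb)
  · intro p hp
    rcases car_cases p with ⟨b, rfl⟩ | ⟨b, e, h, rfl⟩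
    · rw [yp_le_yp]
      by_contra hlt
      obtain ⟨c, hc, hca⟩ := hlim b (not_le.1 hlt)
      have := hp ⟨c, hca, rfl⟩
      rw [yp_le_yp] at this
      exact absurd hc (not_lt.2 this)
    · rw [qp_le_yp]
      by_contra hlt
      obtain ⟨c, hc, hca⟩ := hlim b (not_le.1 hlt)
      have := hp ⟨c, hca, rfl⟩
      rw [qp_le_yp] at this
      exact absurd hc (not_lt.2 this)

omit [LinearOrder W] in
theorem mk_car_le (hW : ℵ₀ ≤ #W) : #(Car S D) ≤ #W := by
  refine (Cardinal.mk_set_le _).trans ?_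
  have h1 : #((WithTop W)ᵒᵈ ×ₗ WithTop W) = #(WithTop W × WithTop W) := Cardinal.mk_congr ofLex
  rw [h1, Cardinal.mk_prod, lift_id, Cardinal.mul_eq_self]
  · have h2 : #(WithTop W) = #(Option W) := rfl
    rw [h2, Cardinal.mk_option]
    exact (Cardinal.add_one_eq hW).le
  · have h2 : #(WithTop W) = #(Option W) := rfl
    rw [h2, Cardinal.mk_option]
    exact hW.trans (le_self_add)

end

end Pool.Agent.H458R3.Lots
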