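import Mathlib

/-!
# Ulam's theorem: disjoint stationary subsets of `ω₁`

`W` is a well-order all of whose proper initial segments are countable and all of whose countable
subsets are bounded.
-/

namespace Pool.Agent.H458R3.Lots

open Cardinal Set

universe u

variable {W : Type u} [LinearOrder W] [WellFoundedLT W]

/-- the closure points of `g` above a given point -/
theorem exists_closed (hb : ∀ C : Set W, C.Countable → ∃ b, ∀ c ∈ C, c < b)
    (h1 : ∀ w : W, (Iio w).Countable) (g : W → W) (a : W) :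
    ∃ c, a < c ∧ ∀ b < c, g b < c := by
  have hG : ∀ d : W, ∃ e, d < e ∧ ∀ b ≤ d, g b < e := by
    intro d
    have hC : (insert d (g '' Iic d)).Countable := by
      refine Countable.insert _ (Countable.image ?_ _)
      rw [← Iio_insert]
      exact (h1 d).insert _
    obtain ⟨e, he⟩ := hb _ hC
    exact ⟨e, he d (mem_insert _ _), fun b hbd => he _ (mem_insert_of_mem _ ⟨b, hbd, rfl⟩)⟩
  choose G hG1 hG2 using hG
  let s : ℕ → W := fun n => G^[n] a
  have hs : ∀ n, s (n + 1) = G (s n) := fun n => Function.iterate_succ_apply' _ _ _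
  have hne : {c | ∀ n, s n < c}.Nonempty := by
    obtain ⟨c, hc⟩ := hb (range s) (countable_range _)
    exact ⟨c, fun n => hc _ ⟨n, rfl⟩⟩
  obtain ⟨c, hc, hmin⟩ : ∃ c ∈ {c | ∀ n, s n < c}, ∀ b < c, b ∉ {c | ∀ n, s n < c} :=
    ⟨wellFounded_lt.min _ hne, wellFounded_lt.min_mem _ hne,
      fun b hb hmem => wellFounded_lt.not_lt_min _ hmem hb⟩
  refine ⟨c, hc 0, fun b hbc => ?_⟩
  have h2 := hmin b hbc
  simp only [mem_ofPred_eq, not_forall, not_lt] at h2
  obtain ⟨n, hn⟩ := h2
  have h3 := hG2 (s n) b hn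
  rw [← hs] at h3
  exact h3.trans (hc _)

/-- `T` is stationary: it contains a closure point (above any given point) of every function. -/
def Stat (T : Set W) : Prop :=
  ∀ (g : W → W) (a : W), ∃ c ∈ T, a < c ∧ ∀ b < c, g b < c

/-- Ulam's theorem: there are disjoint stationary sets indexed by `W`. -/
theorem exists_stat (hb : ∀ C : Set W, C.Countable → ∃ b, ∀ c ∈ C, c < b)
    (h1 : ∀ w : W, (Iio w).Countable) (hW : #W = ℵ₁) :
    ∃ T : W → Set W, (∀ i, Stat (T i)) ∧ ∀ i j, i ≠ j → Disjoint (T i) (T j) := by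
  classical
  have hinj : ∀ w : W, ∃ e : Iio w → ℕ, Function.Injective e := by
    intro w
    have : Countable (Iio w) := h1 w
    exact exists_injective_nat _
  choose e he using hinj
  let Um : ℕ → W → Set W := fun n a => {b | ∃ h : a < b, e b ⟨a, h⟩ = n}
  have hstat : ∀ a, ∃ n, Stat (Um n a) := by
    intro a
    by_contra hcon
    push Not at hcon
    have hcon' : ∀ n, ∃ (g : W → W) (a' : W), ∀ c ∈ Um n a, a' < c → ∃ b < c, c ≤ g b := by
      intro n
      have := hcon n
      simp only [Stat, not_forall, not_exists, not_and, not_lt] at this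
      obtain ⟨g, a', h⟩ := this
      refine ⟨g, a', fun c hc hac => ?_⟩
      obtain ⟨b, hb', hb''⟩ := h c hc hac
      exact ⟨b, hb', hb''⟩
    choose g a' hg using hcon'
    have hG : ∀ b, ∃ c, ∀ n, g n b < c := by
      intro b
      obtain ⟨c, hc⟩ := hb (range fun n => g n b) (countable_range _)
      exact ⟨c, fun n => hc _ ⟨n, rfl⟩⟩
    choose G hG' using hG
    obtain ⟨a2, ha2⟩ := hb (insert a (range a')) ((countable_range _).insert _)
    obtain ⟨c, hc1, hc2⟩ := exists_closed hb h1 G a2
    have hac : a < c := (ha2 a (mem_insert _ _)).trans hc1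
    obtain ⟨b, hbc, hb'⟩ := hg (e c ⟨a, hac⟩) c ⟨hac, rfl⟩
      ((ha2 _ (mem_insert_of_mem _ ⟨_, rfl⟩)).trans hc1)
    exact absurd ((hG' b _).trans (hc2 b hbc)) (not_lt.2 hb')
  choose N hN using hstat
  -- uncountably many `a` have the same `N a`
  have hunc : ∃ n, ¬ (N ⁻¹' {n}).Countable := by
    by_contra hcon
    push Not at hcon
    have h2 : (Set.univ : Set W).Countable := by
      have : (Set.univ : Set W) = ⋃ n, N ⁻¹' {n} := by
        ext x; simp
      rw [this]
      exact countable_iUnion hcon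
    obtain ⟨b, hb'⟩ := hb _ h2
    exact lt_irrefl _ (hb' b (mem_univ _))
  obtain ⟨n, hn⟩ := hunc
  have hcard : #W ≤ #(N ⁻¹' {n}) := by
    rw [hW]
    by_contra hlt
    rw [not_le, ← succ_aleph0, Order.lt_succ_iff] at hlt
    exact hn (Cardinal.mk_le_aleph0_iff.1 hlt)
  obtain ⟨j⟩ := hcard
  refine ⟨fun i => Um n (j i).1, fun i => ?_, fun i i' hne => ?_⟩
  · have h2 : N (j i).1 = n := (j i).2
    have h3 := hN (j i).1
    rw [h2] at h3
    exact h3
  · rw [Set.disjoint_left]
    rintro b ⟨h2, h3⟩ ⟨h4, h5⟩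
    have h6 := he b (h3.trans h5.symm)
    have h7 : (j i).1 = (j i').1 := congrArg (fun x : Iio b => x.1) h6
    exact hne (j.injective (Subtype.ext h7))

end Pool.Agent.H458R3.Lots
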