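import Pool.Agent.H458R3.LotsA
import Pool.Agent.H458R3.LotsB

/-!
# No universal LOTS at `κ` for `ℵ₁ ≤ κ < 2 ^ ℵ₁`
-/

namespace Pool.Agent.H458R3.Lots

open Cardinal Set

universe u

theorem clash {W : Type u} [LinearOrder W] [WellFoundedLT W]
    (hb : ∀ C : Set W, C.Countable → ∃ b, ∀ c ∈ C, c < b)
    {U : Type u} [LinearOrder U] {S S' D T : Set W} (hD : D.Countable) (d0 : W) (hd0 : d0 ∈ D)
    (hDmax : ∀ d ∈ D, ∃ e ∈ D, d < e)
    {f : Car S D → U} {f' : Car S' D → U} (hf : IsLOTSEmbedding f) (hf' : IsLOTSEmbedding f')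
    (htop : f (yp S D ⊤) = f' (yp S' D ⊤)) (hT : Stat T) (hTS : T ⊆ S) (hTS' : Disjoint T S') :
    False := by
  have hm := hf.strictMono
  have hm' := hf'.strictMono
  have hsucc : ∀ w : W, ∃ w', w < w' := fun w => by
    obtain ⟨b, hb'⟩ := hb {w} (countable_singleton _)
    exact ⟨b, hb' w rfl⟩
  have hlimtop : ∀ b < (⊤ : WithTop W), ∃ c : WithTop W, b < c ∧ c < ⊤ := by
    intro b hbt
    obtain ⟨w, rfl⟩ := WithTop.ne_top_iff_exists.1 hbt.ne
    obtain ⟨w', hw'⟩ := hsucc w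
    exact ⟨w', WithTop.coe_lt_coe.2 hw', WithTop.coe_lt_top _⟩
  have hglb := hf.isGLB (⟨yp S D (d0 : WithTop W), (d0 : WithTop W), WithTop.coe_lt_top _, rfl⟩ :
    (yp S D '' Iio ⊤).Nonempty) (isGLB_yp ⊤ hlimtop)
  have hglb' := hf'.isGLB (⟨yp S' D (d0 : WithTop W), (d0 : WithTop W), WithTop.coe_lt_top _,
    rfl⟩ : (yp S' D '' Iio ⊤).Nonempty) (isGLB_yp ⊤ hlimtop)
  have hg1 : ∀ b : W, ∃ c : W, f (yp S D c) < f' (yp S' D b) := by
    intro b
    have h1 : f (yp S D ⊤) < f' (yp S' D b) := by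
      rw [htop]
      exact hm' (yp_lt_yp.2 (WithTop.coe_lt_top b))
    obtain ⟨x, ⟨_, ⟨c, hc, rfl⟩, rfl⟩, _, h2⟩ := hglb.exists_between h1
    obtain ⟨w, rfl⟩ := WithTop.ne_top_iff_exists.1 (show c < ⊤ from hc).ne
    exact ⟨w, h2⟩
  have hg2 : ∀ b : W, ∃ c : W, f' (yp S' D c) < f (yp S D b) := by
    intro b
    have h1 : f' (yp S' D ⊤) < f (yp S D b) := by
      rw [← htop]
      exact hm (yp_lt_yp.2 (WithTop.coe_lt_top b))
    obtain ⟨x, ⟨_, ⟨c, hc, rfl⟩, rfl⟩, _, h2⟩ := hglb'.exists_between h1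
    obtain ⟨w, rfl⟩ := WithTop.ne_top_iff_exists.1 (show c < ⊤ from hc).ne
    exact ⟨w, h2⟩
  choose g1 hg1 using hg1
  choose g2 hg2 using hg2
  choose nx hnx using hsucc
  obtain ⟨c, hcT, hac, hcl⟩ := hT (fun b => max (max (g1 b) (g2 b)) (nx b)) d0
  have hlim : ∀ b < (c : WithTop W), ∃ e : WithTop W, b < e ∧ e < c := by
    intro b hbc
    obtain ⟨w, rfl⟩ := WithTop.ne_top_iff_exists.1 (hbc.trans_le le_top).ne
    have h1 := hcl w (WithTop.coe_lt_coe.1 hbc)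
    exact ⟨nx w, WithTop.coe_lt_coe.2 (hnx w),
      WithTop.coe_lt_coe.2 ((le_max_right _ _).trans_lt h1)⟩
  have hnec : (yp S D '' Iio (c : WithTop W)).Nonempty :=
    ⟨_, (d0 : WithTop W), WithTop.coe_lt_coe.2 hac, rfl⟩
  have hnec' : (yp S' D '' Iio (c : WithTop W)).Nonempty :=
    ⟨_, (d0 : WithTop W), WithTop.coe_lt_coe.2 hac, rfl⟩
  have hc1 := hf.isGLB hnec (isGLB_yp (c : WithTop W) hlim)
  have hc2 := hf'.isGLB hnec' (isGLB_yp (c : WithTop W) hlim)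
  have heq : f (yp S D c) = f' (yp S' D c) := by
    apply le_antisymm
    · apply hc2.2
      rintro _ ⟨_, ⟨b, hbc, rfl⟩, rfl⟩
      obtain ⟨w, rfl⟩ := WithTop.ne_top_iff_exists.1 ((show b < (c : WithTop W) from hbc).trans_le
        le_top).ne
      have h1 := hcl w (WithTop.coe_lt_coe.1 hbc)
      have h2 : g1 w < c := (le_max_left _ _).trans_lt ((le_max_left _ _).trans_lt h1)
      exact (hm (yp_lt_yp.2 (WithTop.coe_lt_coe.2 h2))).le.trans (hg1 w).le
    · apply hc1.2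
      rintro _ ⟨_, ⟨b, hbc, rfl⟩, rfl⟩
      obtain ⟨w, rfl⟩ := WithTop.ne_top_iff_exists.1 ((show b < (c : WithTop W) from hbc).trans_le
        le_top).ne
      have h1 := hcl w (WithTop.coe_lt_coe.1 hbc)
      have h2 : g2 w < c := (le_max_right _ _).trans_lt ((le_max_left _ _).trans_lt h1)
      exact (hm' (yp_lt_yp.2 (WithTop.coe_lt_coe.2 h2))).le.trans (hg2 w).le
  have hcS : c ∈ S := hTS hcT
  have hcS' : c ∉ S' := Set.disjoint_left.1 hTS' hcT
  have hlub := hf.isLUB (⟨_, d0, Or.inl hcS, rfl⟩ : {z | ∃ d h, z = qp S D c d h}.Nonempty)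
    (isLUB_yp c d0 (Or.inl hcS) (fun d _ => ⟨nx d, hnx d, Or.inl hcS⟩))
  have hlub' := hf'.isLUB (⟨_, d0, Or.inr hd0, rfl⟩ : {z | ∃ d h, z = qp S' D c d h}.Nonempty)
    (isLUB_yp c d0 (Or.inr hd0) (fun d hd => by
      rcases hd with hd | hd
      · exact absurd hd hcS'
      · obtain ⟨e, he, hde⟩ := hDmax d hd
        exact ⟨e, hde, Or.inr he⟩))
  have hex : ∀ d : D, ∃ e : W, f' (qp S' D c d (Or.inr d.2)) < f (qp S D c e (Or.inl hcS)) := by
    intro d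
    have h1 : f' (qp S' D c d (Or.inr d.2)) < f (yp S D c) := by
      rw [heq]
      exact hm' ((qp_lt_yp _).2 le_rfl)
    obtain ⟨x, ⟨_, ⟨e, h, rfl⟩, rfl⟩, h2, _⟩ := hlub.exists_between h1
    exact ⟨e, h2⟩
  choose e he using hex
  have : Countable D := hD
  obtain ⟨e', he'⟩ := hb (range e) (countable_range _)
  have hub : f' (yp S' D c) ≤ f (qp S D c e' (Or.inl hcS)) := by
    apply hlub'.2
    rintro _ ⟨_, ⟨d, h, rfl⟩, rfl⟩
    have hdD : d ∈ D := h.resolve_left hcS'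
    exact (he ⟨d, hdD⟩).le.trans
      (hm ((qp_lt_qp _ _).2 (Or.inr ⟨rfl, he' _ ⟨_, rfl⟩⟩))).le
  rw [← heq] at hub
  exact absurd (hm ((qp_lt_yp (Or.inl hcS)).2 (le_refl (c : WithTop W)))) (not_lt.2 hub)

/-- There is no universal LOTS at `κ` if `ℵ₁ ≤ κ < 2 ^ ℵ₁`. -/
theorem no_universal_of_lt (U : Type u) [LinearOrder U] (hU1 : ℵ₁ ≤ #U)
    (hU2 : #U < 2 ^ (ℵ₁ : Cardinal.{u}))
    (hU : ∀ (L : Type u) [LinearOrder L], #L = #U → ∃ f : L → U, IsLOTSEmbedding f) : False := by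
  classical
  obtain ⟨W, hWo, hWf, hWc, h1, hb⟩ : ∃ (W : Type u) (_ : LinearOrder W), WellFoundedLT W ∧
      #W = ℵ₁ ∧ (∀ w : W, (Iio w).Countable) ∧
      ∀ C : Set W, C.Countable → ∃ b, ∀ c ∈ C, c < b := by
    refine ⟨(ℵ₁ : Cardinal.{u}).ord.ToType, inferInstance, inferInstance,
      Cardinal.mk_ord_toType _, fun w => ?_, fun C hC => ?_⟩
    · have h2 : #(Iio w) < ℵ₁ := Cardinal.mk_Iio_toType_ord_lt w
      have h3 : #(Iio w) ≤ ℵ₀ := Order.lt_succ_iff.1 (h2.trans_le succ_aleph0.ge)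
      exact Cardinal.mk_le_aleph0_iff.1 h3
    · by_contra hcon
      push Not at hcon
      have h2 : IsCofinal C := fun b => by
        obtain ⟨s, hs, hb⟩ := hcon b
        exact ⟨s, hs, hb⟩
      have h3 := Order.cof_le h2
      rw [Ordinal.cof_toType, isRegular_aleph_one.cof_ord] at h3
      exact absurd (h3.trans (Cardinal.mk_le_aleph0_iff.2 hC)) (not_le.2 aleph0_lt_aleph_one)
  obtain ⟨T, hT, hTd⟩ := exists_stat hb h1 hWc
  -- a sequence
  have hsucc : ∀ w : W, ∃ w', w < w' := fun w => by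
    obtain ⟨b, hb'⟩ := hb {w} (countable_singleton _)
    exact ⟨b, hb' w rfl⟩
  choose nx hnx using hsucc
  obtain ⟨d0, _⟩ := hb ∅ countable_empty
  let s : ℕ → W := fun n => nx^[n] d0
  have hs : ∀ n, s n < s (n + 1) := by
    intro n
    show nx^[n] d0 < nx^[n + 1] d0
    rw [Function.iterate_succ_apply']
    exact hnx _
  let SS : Set W → Set W := fun A => ⋃ i ∈ A, T i
  have hWinf : ℵ₀ ≤ #W := by rw [hWc]; exact aleph0_lt_aleph_one.le
  have hemb : ∀ A : Set W, ∃ f : Car (SS A) (range s) → U, IsLOTSEmbedding f := by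
    intro A
    refine embed_of_le (κ := #U) (aleph0_lt_aleph_one.le.trans hU1) hU _ ?_
    exact (mk_car_le hWinf).trans (hWc.le.trans hU1)
  choose f hf using hemb
  have hni : ¬ Function.Injective fun A : Set W => f A (yp _ _ ⊤) := by
    intro hinj
    have h2 := Cardinal.mk_le_of_injective hinj
    rw [Cardinal.mk_set, hWc] at h2
    exact absurd h2 (not_le.2 hU2)
  simp only [Function.Injective, not_forall] at hni
  obtain ⟨A, A', heq, hne⟩ := hni
  have key : ∀ A A' : Set W, f A (yp _ _ ⊤) = f A' (yp _ _ ⊤) → ∀ i ∈ A, i ∉ A' → False := by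
    intro A A' heq i hi hi'
    refine clash hb (countable_range s) d0 ⟨0, rfl⟩ ?_ (hf A) (hf A') heq (hT i) ?_ ?_
    · rintro _ ⟨n, rfl⟩
      exact ⟨s (n + 1), ⟨n + 1, rfl⟩, hs n⟩
    · exact subset_biUnion_of_mem hi
    · rw [Set.disjoint_left]
      intro x hx hx'
      obtain ⟨j, hj, hxj⟩ := mem_iUnion₂.1 hx'
      exact Set.disjoint_left.1 (hTd i j (fun h => hi' (h ▸ hj))) hx hxj
  apply hne
  ext i
  constructor
  · intro hi
    by_contra hi'
    exact key A A' heq i hi hi'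
  · intro hi
    by_contra hi'
    exact key A' A heq.symm i hi hi'

end Pool.Agent.H458R3.Lots
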