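import Pool.Agent.H458R3.LotsA

/-!
# No universal LOTS at `κ` for `κ ≥ 2 ^ ℵ₀`
-/

namespace Pool.Agent.H458R3.Lots

open Cardinal Set

universe u

/-- The point `x` has uncountable left cofinality. -/
def UC {X : Type u} [LinearOrder X] (x : X) : Prop :=
  ∀ C : Set X, C.Countable → (∀ c ∈ C, c < x) → ∃ b < x, ∀ c ∈ C, c < b

section Long

variable {I : Type u} [LinearOrder I] [WellFoundedLT I]

theorem long_complete (S : Set (I ×ₗ Ico (0 : ℝ) 1)) (hl : ∀ x ∈ S, ∀ y ≤ x, y ∈ S)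
    (hS : ∃ y, y ∉ S) :
    ∃ z, (∀ x < z, x ∈ S) ∧ ∀ x, z < x → x ∉ S := by
  classical
  have hne : {w : I | ∃ r : Ico (0 : ℝ) 1, toLex (w, r) ∉ S}.Nonempty := by
    obtain ⟨y, hy⟩ := hS
    exact ⟨(ofLex y).1, (ofLex y).2, hy⟩
  obtain ⟨w, ⟨r1, hr1⟩, hmin⟩ : ∃ w, (∃ r : Ico (0 : ℝ) 1, toLex (w, r) ∉ S) ∧
      ∀ w' < w, ∀ r : Ico (0 : ℝ) 1, toLex (w', r) ∈ S := by
    refine ⟨wellFounded_lt.min _ hne, wellFounded_lt.min_mem _ hne, fun w' hw' r => ?_⟩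
    by_contra hcon
    exact wellFounded_lt.not_lt_min _ (show w' ∈ {w : I | ∃ r : Ico (0 : ℝ) 1,
      toLex (w, r) ∉ S} from ⟨r, hcon⟩) hw'
  let R : Set ℝ := {r | ∃ h : r ∈ Ico (0 : ℝ) 1, toLex (w, (⟨r, h⟩ : Ico (0 : ℝ) 1)) ∈ S}
  have hRub : ∀ r ∈ R, r ≤ r1 := by
    rintro r ⟨h, hr⟩
    by_contra hlt
    apply hr1
    refine hl _ hr _ ?_
    rw [Prod.Lex.toLex_le_toLex]
    exact Or.inr ⟨rfl, (not_le.1 hlt).le⟩
  have hRbdd : BddAbove R := ⟨r1, hRub⟩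
  by_cases hR : R.Nonempty
  · have h0 : 0 ≤ sSup R := by
      obtain ⟨r, hr⟩ := hR
      exact hr.1.1.trans (le_csSup hRbdd hr)
    have h1 : sSup R ≤ r1 := csSup_le hR hRub
    refine ⟨toLex (w, ⟨sSup R, h0, h1.trans_lt r1.2.2⟩), fun x hx => ?_, fun x hx hxS => ?_⟩
    · obtain ⟨w', r', rfl⟩ : ∃ w' r', x = toLex (w', r') := ⟨_, _, rfl⟩
      rw [Prod.Lex.toLex_lt_toLex] at hx
      rcases hx with hx | ⟨h2, hx⟩
      · exact hmin _ hx _
      · have h2 : w' = w := h2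
        subst h2
        have h3 : (r' : ℝ) < sSup R := hx
        obtain ⟨r, ⟨hr, hrS⟩, hlt⟩ := exists_lt_of_lt_csSup hR h3
        refine hl _ hrS _ ?_
        rw [Prod.Lex.toLex_le_toLex]
        exact Or.inr ⟨rfl, hlt.le⟩
    · obtain ⟨w', r', rfl⟩ : ∃ w' r', x = toLex (w', r') := ⟨_, _, rfl⟩
      rw [Prod.Lex.toLex_lt_toLex] at hx
      rcases hx with hx | ⟨h2, hx⟩
      · apply hr1
        refine hl _ hxS _ ?_
        rw [Prod.Lex.toLex_le_toLex]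
        exact Or.inl hx
      · have h2 : w = w' := h2
        subst h2
        have h3 : sSup R < (r' : ℝ) := hx
        exact absurd (le_csSup hRbdd (show (r' : ℝ) ∈ R from ⟨r'.2, hxS⟩)) (not_le.2 h3)
  · refine ⟨toLex (w, ⟨0, le_rfl, one_pos⟩), fun x hx => ?_, fun x hx hxS => ?_⟩
    · obtain ⟨w', r', rfl⟩ : ∃ w' r', x = toLex (w', r') := ⟨_, _, rfl⟩
      rw [Prod.Lex.toLex_lt_toLex] at hx
      rcases hx with hx | ⟨_, hx⟩
      · exact hmin _ hx _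
      · have h3 : (r' : ℝ) < 0 := hx
        exact absurd r'.2.1 (not_le.2 h3)
    · apply hR
      refine ⟨0, ⟨le_rfl, one_pos⟩, hl _ hxS _ hx.le⟩

theorem isLUB_Iio_long {X : Type u} [LinearOrder X] [DenselyOrdered X] (z : X) :
    IsLUB (Iio z) z := by
  refine ⟨fun x hx => le_of_lt hx, fun b hb => ?_⟩
  by_contra hlt
  obtain ⟨c, hc1, hc2⟩ := exists_between (not_le.1 hlt)
  exact absurd (hb hc2) (not_le.2 hc1)

theorem isGLB_Ioi_long {X : Type u} [LinearOrder X] [DenselyOrdered X] (z : X) :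
    IsGLB (Ioi z) z := by
  refine ⟨fun x hx => le_of_lt hx, fun b hb => ?_⟩
  by_contra hlt
  obtain ⟨c, hc1, hc2⟩ := exists_between (not_le.1 hlt)
  exact absurd (hb hc1) (not_le.2 hc2)

/-- the image of the long line is convex -/
theorem long_convex {U : Type u} [LinearOrder U] {f : I ×ₗ Ico (0 : ℝ) 1 → U}
    (hf : IsLOTSEmbedding f) {x y : I ×ₗ Ico (0 : ℝ) 1} {u : U} (hx : f x ≤ u) (hy : u < f y) :
    ∃ z, f z = u := by
  have hm := hf.strictMono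
  obtain ⟨z, hz1, hz2⟩ := long_complete {z | f z ≤ u}
    (fun a ha b hb => (hm.monotone hb).trans ha) ⟨y, not_le.2 hy⟩
  refine ⟨z, ?_⟩
  rcases lt_trichotomy (f z) u with h | h | h
  · -- `z` is the largest point
    exfalso
    have hne : (Ioi z).Nonempty := ⟨y, hm.lt_iff_lt.1 (h.trans hy)⟩
    obtain ⟨b, ⟨c, hc, rfl⟩, _, h2⟩ := (hf.isGLB hne (isGLB_Ioi_long z)).exists_between h
    exact hz2 c hc h2.le
  · exact h
  · exfalso
    have hne : (Iio z).Nonempty := ⟨x, hm.lt_iff_lt.1 (hx.trans_lt h)⟩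
    obtain ⟨b, ⟨c, hc, rfl⟩, h1, _⟩ := (hf.isLUB hne (isLUB_Iio_long z)).exists_between h
    exact absurd h1 (not_lt.2 (hz1 c hc))

theorem UC_map {X U : Type u} [LinearOrder X] [DenselyOrdered X] [LinearOrder U] {f : X → U}
    (hf : IsLOTSEmbedding f) {z : X} (hz : (Iio z).Nonempty) : UC (f z) ↔ UC z := by
  have hm := hf.strictMono
  have hlub := hf.isLUB hz (isLUB_Iio_long z)
  constructor
  · intro h C hC hCz
    obtain ⟨b, hb, hb'⟩ := h (f '' C) (hC.image _) (by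
      rintro _ ⟨c, hc, rfl⟩
      exact hm (hCz c hc))
    obtain ⟨_, ⟨b', hb1, rfl⟩, h1, _⟩ := hlub.exists_between hb
    exact ⟨b', hb1, fun c hc => hm.lt_iff_lt.1 ((hb' _ ⟨c, hc, rfl⟩).trans h1)⟩
  · intro h C hC hCz
    have h1 : ∀ c : C, ∃ x < z, c < f x := by
      intro c
      obtain ⟨_, ⟨b', hb1, rfl⟩, h1, _⟩ := hlub.exists_between (hCz c c.2)
      exact ⟨b', hb1, h1⟩
    choose x hx hx' using h1
    have : Countable C := hC
    obtain ⟨b, hb, hb'⟩ := h (range x) (countable_range _) (by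
      rintro _ ⟨c, rfl⟩
      exact hx c)
    exact ⟨f b, hm hb, fun c hc => (hx' ⟨c, hc⟩).trans (hm (hb' _ ⟨_, rfl⟩))⟩

omit [WellFoundedLT I] in
theorem UC_long {w : I} {r : Ico (0 : ℝ) 1} :
    UC (toLex (w, r) : I ×ₗ Ico (0 : ℝ) 1) ↔ (r : ℝ) = 0 ∧ UC w := by
  constructor
  · intro h
    have hr : (r : ℝ) = 0 := by
      by_contra hne
      have hpos : 0 < (r : ℝ) := lt_of_le_of_ne r.2.1 (Ne.symm hne)
      obtain ⟨b, hb, hb'⟩ := h ((fun q : ℚ => (toLex (w, if h : (q : ℝ) ∈ Ico (0 : ℝ) 1 then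
        ⟨q, h⟩ else ⟨0, le_rfl, one_pos⟩) : I ×ₗ Ico (0 : ℝ) 1)) '' {q : ℚ | 0 ≤ (q : ℝ) ∧
          (q : ℝ) < r}) ((Set.to_countable _).image _) (by
          rintro _ ⟨q, ⟨hq0, hqr⟩, rfl⟩
          have h1 : (q : ℝ) ∈ Ico (0 : ℝ) 1 := ⟨hq0, hqr.trans r.2.2⟩
          simp only [h1, dif_pos]
          rw [Prod.Lex.toLex_lt_toLex]
          exact Or.inr ⟨rfl, hqr⟩)
      obtain ⟨b1, b2, rfl⟩ : ∃ b1 b2, b = toLex (b1, b2) := ⟨_, _, rfl⟩
      rw [Prod.Lex.toLex_lt_toLex] at hb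
      rcases hb with hb | ⟨h1, hb⟩
      · have h2 := hb' _ ⟨0, ⟨by simp, by simpa using hpos⟩, rfl⟩
        simp only [Rat.cast_zero] at h2
        rw [Prod.Lex.toLex_lt_toLex] at h2
        rcases h2 with h2 | ⟨h2, _⟩
        · exact lt_asymm h2 hb
        · exact absurd hb (not_lt.2 h2.le)
      · have h1 : b1 = w := h1
        subst h1
        obtain ⟨q, hq1, hq2⟩ := exists_rat_btwn (show (b2 : ℝ) < r from hb)
        have hq0 : 0 ≤ (q : ℝ) := b2.2.1.trans hq1.le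
        have h3 : (q : ℝ) ∈ Ico (0 : ℝ) 1 := ⟨hq0, hq2.trans r.2.2⟩
        have h2 := hb' _ ⟨q, ⟨hq0, hq2⟩, rfl⟩
        simp only [h3, dif_pos] at h2
        rw [Prod.Lex.toLex_lt_toLex] at h2
        rcases h2 with h2 | ⟨_, h2⟩
        · exact lt_irrefl _ h2
        · exact absurd hq1 (not_lt.2 (le_of_lt h2))
    refine ⟨hr, ?_⟩
    by_contra hcon
    simp only [UC, not_forall, not_exists, not_and, not_lt] at hcon
    obtain ⟨C0, hC0, hC0w, hC0b⟩ := hcon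
    obtain ⟨b, hb, hb'⟩ := h ((fun p : I × ℚ => (toLex (p.1, if h : (p.2 : ℝ) ∈ Ico (0 : ℝ) 1 then
        ⟨p.2, h⟩ else ⟨0, le_rfl, one_pos⟩) : I ×ₗ Ico (0 : ℝ) 1)) '' (C0 ×ˢ Set.univ))
        ((hC0.prod (Set.to_countable _)).image _) (by
          rintro _ ⟨⟨c, q⟩, ⟨hc, _⟩, rfl⟩
          rw [Prod.Lex.toLex_lt_toLex]
          exact Or.inl (hC0w c hc))
    obtain ⟨b1, b2, rfl⟩ : ∃ b1 b2, b = toLex (b1, b2) := ⟨_, _, rfl⟩
    rw [Prod.Lex.toLex_lt_toLex] at hb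
    have hb1 : b1 < w := by
      rcases hb with hb | ⟨_, hb⟩
      · exact hb
      · have h2 : (b2 : ℝ) < r := hb
        rw [hr] at h2
        exact absurd b2.2.1 (not_le.2 h2)
    obtain ⟨c, hc, hbc⟩ := hC0b b1 hb1
    obtain ⟨q, hq1, hq2⟩ := exists_rat_btwn (show (b2 : ℝ) < 1 from b2.2.2)
    have h3 : (q : ℝ) ∈ Ico (0 : ℝ) 1 := ⟨b2.2.1.trans hq1.le, hq2⟩
    have h2 := hb' _ ⟨(c, q), ⟨hc, mem_univ _⟩, rfl⟩
    simp only [h3, dif_pos] at h2
    rw [Prod.Lex.toLex_lt_toLex] at h2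
    rcases h2 with h2 | ⟨_, h2⟩
    · exact absurd h2 (not_lt.2 hbc)
    · exact absurd hq1 (not_lt.2 (le_of_lt h2))
  · rintro ⟨hr, h⟩ C hC hCz
    obtain ⟨b, hb, hb'⟩ := h ((fun x => (ofLex x).1) '' C) (hC.image _) (by
      rintro _ ⟨c, hc, rfl⟩
      obtain ⟨c1, c2, rfl⟩ : ∃ b1 b2, c = toLex (b1, b2) := ⟨_, _, rfl⟩
      have h1 := hCz _ hc
      rw [Prod.Lex.toLex_lt_toLex] at h1
      rcases h1 with h1 | ⟨_, h1⟩
      · exact h1
      · have h2 : (c2 : ℝ) < r := h1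
        rw [hr] at h2
        exact absurd c2.2.1 (not_le.2 h2))
    refine ⟨toLex (b, r), ?_, fun c hc => ?_⟩
    · rw [Prod.Lex.toLex_lt_toLex]
      exact Or.inl hb
    · obtain ⟨c1, c2, rfl⟩ : ∃ b1 b2, c = toLex (b1, b2) := ⟨_, _, rfl⟩
      rw [Prod.Lex.toLex_lt_toLex]
      exact Or.inl (hb' _ ⟨_, hc, rfl⟩)

end Long

theorem UC_Iic {V : Type u} [LinearOrder V] {v : V} {w : V} (hw : w ≤ v) :
    UC (⟨w, hw⟩ : Iic v) ↔ UC w := by
  constructor
  · intro h C hC hCw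
    obtain ⟨b, hb, hb'⟩ := h {x | x.1 ∈ C} (hC.preimage Subtype.val_injective)
      (fun c hc => hCw c.1 hc)
    exact ⟨b.1, hb, fun c hc => hb' ⟨c, (hCw c hc).le.trans hw⟩ hc⟩
  · intro h C hC hCw
    obtain ⟨b, hb, hb'⟩ := h (Subtype.val '' C) (hC.image _) (by
      rintro _ ⟨c, hc, rfl⟩
      exact hCw c hc)
    exact ⟨⟨b, hb.le.trans hw⟩, hb, fun c hc => hb' _ ⟨c, hc, rfl⟩⟩

/-- There is no universal LOTS at `κ` if `κ ≥ 2 ^ ℵ₀`. -/
theorem no_universal_of_ge (U : Type u) [LinearOrder U]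
    (hU2 : 2 ^ (ℵ₀ : Cardinal.{u}) ≤ #U)
    (hU : ∀ (L : Type u) [LinearOrder L], #L = #U → ∃ f : L → U, IsLOTSEmbedding f) : False := by
  classical
  have hU0 : ℵ₀ < #U := (cantor ℵ₀).trans_le hU2
  have hreg : (Order.succ #U).IsRegular := isRegular_succ hU0.le
  obtain ⟨V, hVo, hVf, hV1, hV2, hVc⟩ : ∃ (V : Type u) (_ : LinearOrder V),
      WellFoundedLT V ∧ (∀ v : V, #(Iio v) ≤ #U) ∧
      (∀ C : Set V, #C ≤ #U → ∃ b, ∀ c ∈ C, c < b) ∧ #V = Order.succ #U := by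
    refine ⟨(Order.succ #U).ord.ToType, inferInstance, inferInstance,
      fun w => ?_, fun C hC => ?_, Cardinal.mk_ord_toType _⟩
    · have h2 : #(Iio w) < Order.succ #U := Cardinal.mk_Iio_toType_ord_lt w
      exact Order.lt_succ_iff.1 h2
    · by_contra hcon
      push Not at hcon
      have h2 : IsCofinal C := fun b => by
        obtain ⟨s, hs, hb⟩ := hcon b
        exact ⟨s, hs, hb⟩
      have h3 := Order.cof_le h2
      rw [Ordinal.cof_toType, hreg.cof_ord] at h3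
      exact absurd (h3.trans hC) (not_le.2 (Order.lt_succ _))
  have hV1' : ∀ v : V, #(Iic v) ≤ #U := by
    intro v
    rw [← Iio_insert]
    exact (mk_insert_le).trans (Cardinal.add_le_of_le hU0.le (hV1 v) (one_le_aleph0.trans hU0.le))
  -- the least element
  obtain ⟨v0, hv0⟩ : ∃ v0 : V, ∀ v, v0 ≤ v := by
    obtain ⟨b, _⟩ := hV2 ∅ (by simp)
    have : Nonempty V := ⟨b⟩
    exact ⟨wellFounded_lt.min Set.univ ⟨b, mem_univ _⟩,
      fun v => not_lt.1 (wellFounded_lt.not_lt_min _ (mem_univ v))⟩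
  have hcard : ∀ v : V, #(Iic v ×ₗ Ico (0 : ℝ) 1) ≤ #U := by
    intro v
    have h1 : #(Iic v ×ₗ Ico (0 : ℝ) 1) = #(Iic v × Ico (0 : ℝ) 1) := Cardinal.mk_congr ofLex
    rw [h1, Cardinal.mk_prod, lift_uzero]
    have h2 : lift.{u} #(Ico (0 : ℝ) 1) ≤ #U := by
      refine (Cardinal.lift_le.2 (Cardinal.mk_set_le _)).trans ?_
      rw [Cardinal.mk_real, Cardinal.lift_continuum, ← Cardinal.two_power_aleph0]
      exact hU2
    exact (mul_le_mul' (hV1' v) h2).trans (Cardinal.mul_eq_self hU0.le).le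
  choose f hf using fun v : V => embed_of_le hU0.le hU (Iic v ×ₗ Ico (0 : ℝ) 1) (hcard v)
  let zr : Ico (0 : ℝ) 1 := ⟨0, le_rfl, one_pos⟩
  let P : ∀ v w : V, w ≤ v → Iic v ×ₗ Ico (0 : ℝ) 1 := fun v w h => toLex (⟨w, h⟩, zr)
  -- the pigeonhole principle
  obtain ⟨a, ha⟩ : ∃ a : U, ∀ b, ∃ v, b ≤ v ∧ f v (P v v0 (hv0 v)) = a := by
    by_contra hcon
    push Not at hcon
    choose b hb using hcon
    obtain ⟨b', hb'⟩ := hV2 (range b) (mk_range_le)
    exact hb _ b' (hb' _ ⟨_, rfl⟩).le rfl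
  have hbot : ∀ v (z : Iic v ×ₗ Ico (0 : ℝ) 1), P v v0 (hv0 v) ≤ z := by
    intro v z
    obtain ⟨b1, b2, rfl⟩ : ∃ b1 b2, z = toLex (b1, b2) := ⟨_, _, rfl⟩
    rw [Prod.Lex.toLex_le_toLex]
    rcases (hv0 b1.1).lt_or_eq with h | h
    · exact Or.inl h
    · exact Or.inr ⟨Subtype.ext h, b2.2.1⟩
  have hUCP : ∀ v w (h : w ≤ v), UC w → UC (P v w h) := fun v w h hw =>
    UC_long.2 ⟨rfl, (UC_Iic h).2 hw⟩
  have hUCne : ∀ v w (h : w ≤ v), UC w → (Iio (P v w h)).Nonempty := by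
    intro v w h hw
    obtain ⟨b, hb, _⟩ := hUCP v w h hw ∅ countable_empty (by simp)
    exact ⟨b, hb⟩
  -- the main claim
  have key : ∀ w : V, UC w → ∀ v v' (h : w ≤ v) (h' : w ≤ v'), f v (P v v0 (hv0 v)) = a →
      f v' (P v' v0 (hv0 v')) = a → ¬ f v (P v w h) < f v' (P v' w h') := by
    intro w
    induction w using WellFoundedLT.induction with
    | ind w ih =>
      intro hw v v' h h' hv hv' hlt
      have h1 : f v' (P v' v0 (hv0 v')) ≤ f v (P v w h) := by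
        rw [hv', ← hv]
        exact (hf v).strictMono.monotone (hbot v _)
      obtain ⟨z, hz⟩ := long_convex (hf v') h1 hlt
      have hzlt : z < P v' w h' := by
        rw [← (hf v').strictMono.lt_iff_lt, hz]
        exact hlt
      have hzne : (Iio z).Nonempty := by
        refine ⟨P v' v0 (hv0 v'), lt_of_le_of_ne (hbot v' z) fun heq => ?_⟩
        rw [← heq, hv', ← hv] at hz
        have h2 := (hf v).1 hz
        obtain ⟨y, hy⟩ := hUCne v w h hw
        rw [← h2] at hy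
        exact absurd (hbot v y) (not_le.2 hy)
      have hUCz : UC z := by
        rw [← UC_map (hf v') hzne, hz, UC_map (hf v) (hUCne v w h hw)]
        exact hUCP v w h hw
      obtain ⟨w1, r, rfl⟩ : ∃ b1 b2, z = toLex (b1, b2) := ⟨_, _, rfl⟩
      rw [UC_long] at hUCz
      obtain ⟨hr, hw1⟩ := hUCz
      have hr' : r = zr := Subtype.ext hr
      subst hr'
      rw [Prod.Lex.toLex_lt_toLex] at hzlt
      have hw1lt : w1.1 < w := by
        rcases hzlt with h2 | ⟨_, h2⟩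
        · exact h2
        · exact absurd h2 (lt_irrefl _)
      have hw1' : UC w1.1 := (UC_Iic w1.2).1 hw1
      have h3 : f v' (P v' w1.1 w1.2) = f v (P v w h) := hz
      have h4 := ih w1.1 hw1lt hw1' v v' (hw1lt.le.trans h) w1.2 hv hv'
      apply h4
      rw [h3]
      refine (hf v).strictMono ?_
      rw [Prod.Lex.toLex_lt_toLex]
      exact Or.inl hw1lt
  have key' : ∀ w : V, UC w → ∀ v v' (h : w ≤ v) (h' : w ≤ v'), f v (P v v0 (hv0 v)) = a →
      f v' (P v' v0 (hv0 v')) = a → f v (P v w h) = f v' (P v' w h') := by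
    intro w hw v v' h h' hv hv'
    exact le_antisymm (not_lt.1 (key w hw v' v h' h hv' hv))
      (not_lt.1 (key w hw v v' h h' hv hv'))
  -- the injection
  choose V' hV'1 hV'2 using ha
  let G : {w : V | UC w} → U := fun w => f (V' w.1) (P (V' w.1) w.1 (hV'1 w.1))
  have hG : Function.Injective G := by
    have aux : ∀ w w' : {w : V | UC w}, w.1 < w'.1 → G w ≠ G w' := by
      intro w w' hlt heq
      have h1 : w.1 ≤ V' w'.1 := hlt.le.trans (hV'1 w'.1)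
      have h2 : G w = f (V' w'.1) (P (V' w'.1) w.1 h1) :=
        key' w.1 w.2 _ _ _ _ (hV'2 _) (hV'2 _)
      rw [h2] at heq
      have h3 := (hf _).1 heq
      have h4 : P (V' w'.1) w.1 h1 < P (V' w'.1) w'.1 (hV'1 w'.1) := by
        rw [Prod.Lex.toLex_lt_toLex]
        exact Or.inl hlt
      exact absurd h3 h4.ne
    intro w w' heq
    rcases lt_trichotomy w.1 w'.1 with h | h | h
    · exact absurd heq (aux w w' h)
    · exact Subtype.ext h
    · exact absurd heq.symm (aux w' w h)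
  obtain ⟨w0, hw0⟩ := hV2 _ (Cardinal.mk_le_of_injective hG)
  -- an element of uncountable cofinality above `w0`
  have hbig : ∃ w, ¬ (Ioo w0 w).Countable := by
    have h1 : #(Iic w0) ≤ #U := hV1' w0
    have h2 : ℵ₁ ≤ #(Ioi w0) := by
      by_contra hlt
      rw [not_le] at hlt
      have h3 : #V ≤ #(Iic w0) + #(Ioi w0) := by
        rw [← mk_univ]
        refine (mk_le_mk_of_subset (t := Iic w0 ∪ Ioi w0) ?_).trans (mk_union_le _ _)
        rw [Iic_union_Ioi]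
      have h4 : #(Ioi w0) ≤ #U := hlt.le.trans (by
        rw [← succ_aleph0]; exact Order.succ_le_of_lt hU0)
      rw [hVc] at h3
      exact absurd (h3.trans (Cardinal.add_le_of_le hU0.le h1 h4)) (not_le.2 (Order.lt_succ _))
    obtain ⟨S, hS1, hS2⟩ := Cardinal.le_mk_iff_exists_subset.1 h2
    obtain ⟨w, hw⟩ := hV2 S (by rw [hS2, ← succ_aleph0]; exact Order.succ_le_of_lt hU0)
    refine ⟨w, fun hc => ?_⟩
    have hsub : S ⊆ Ioo w0 w := fun s hs => ⟨hS1 hs, hw s hs⟩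
    have h3 : #S ≤ ℵ₀ := Cardinal.mk_le_aleph0_iff.2 (hc.mono hsub)
    rw [hS2] at h3
    exact absurd h3 (not_le.2 aleph0_lt_aleph_one)
  obtain ⟨w, hw, hwmin⟩ : ∃ w, ¬ (Ioo w0 w).Countable ∧ ∀ w' < w, (Ioo w0 w').Countable := by
    refine ⟨wellFounded_lt.min {w | ¬ (Ioo w0 w).Countable} hbig,
      wellFounded_lt.min_mem {w | ¬ (Ioo w0 w).Countable} hbig, fun w' hw' => ?_⟩
    by_contra hcon
    exact wellFounded_lt.not_lt_min {w | ¬ (Ioo w0 w).Countable} hcon hw'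
  have hUCw : UC w := by
    intro C hC hCw
    by_contra hcon
    push Not at hcon
    apply hw
    have h1 : (⋃ c ∈ C, insert c (Ioo w0 c)).Countable :=
      hC.biUnion fun c hc => (hwmin c (hCw c hc)).insert _
    refine h1.mono fun b hb => ?_
    obtain ⟨c, hc, hbc⟩ := hcon b hb.2
    rw [mem_iUnion₂]
    refine ⟨c, hc, ?_⟩
    rcases hbc.lt_or_eq with h | h
    · exact Or.inr ⟨hb.1, h⟩
    · exact Or.inl h
  have h5 := hw0 w hUCw
  apply hw
  rw [Ioo_eq_empty (not_lt.2 h5.le)]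
  exact countable_empty

end Pool.Agent.H458R3.Lots
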