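import Mathlib
import Pool.Agent.Helper669.Forcing

/-!
# Random forcing and the strong polarized relation
-/

namespace Pool.Agent.H458R3.Rand

open MeasureTheory Measure ProbabilityTheory Set Cardinal
open Pool.Agent.Helper669.Forcing
open scoped ENNReal

universe u v w

/-! ### The forcing language -/

section

variable {P : Type u} [Preorder P]

/-- `φ or ψ` is `not (not φ and not ψ)`. -/
def for' (φ ψ : Set P) : Set P := fnot (fand (fnot φ) (fnot ψ))

/-- The subset of `X` named by `A` has the same cardinality as `X`: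
some injective function from `X` to `X` takes all its values in `A`. -/
def HasFullSize {X : Type v} (A : X → Set P) : Set P :=
  fex fun R : X → X → Set P =>
    fand (IsFun R) (fand (IsInj R)
      (fall fun x => fall fun y => fimp (meets (R x y)) (meets (A y))))

/-- The strong polarized relation (for all `c : X × Y → 2` there are `A ⊆ X` and `B ⊆ Y`
with `|A| = |X|`, `|B| = |Y|` and `c` constant on `A × B`) in the generic extension.
The colouring is given by the set `{(x, y) : c (x, y) = 1}`. -/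
def Polarized (P : Type u) [Preorder P] (X : Type v) (Y : Type w) : Set P :=
  fall fun c : X → Y → Set P =>
    fex fun A : X → Set P => fex fun B : Y → Set P =>
      fand (HasFullSize A) (fand (HasFullSize B)
        (for'
          (fall fun x => fall fun y => fimp (fand (meets (A x)) (meets (B y))) (meets (c x y)))
          (fall fun x => fall fun y =>
            fimp (fand (meets (A x)) (meets (B y))) (fnot (meets (c x y))))))

theorem meets_of_dense {N : Set P} {p : P} (h : ∀ q ≤ p, ∃ r ≤ q, r ∈ meets N) : p ∈ meets N := by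
  intro q hq
  obtain ⟨r, hr, h'⟩ := h q hq
  obtain ⟨r', hr', s, hs, hle⟩ := h' r le_rfl
  exact ⟨r', hr'.trans hr, s, hs, hle⟩

theorem mem_for {φ ψ : Set P} {p : P} :
    p ∈ for' φ ψ ↔ ∀ q ≤ p, ∃ r ≤ q, r ∈ φ ∨ r ∈ ψ := by
  simp only [for', fnot, fand, Set.mem_ofPred_eq, not_and_or, not_forall, not_not]
  constructor
  · intro h q hq
    rcases h q hq with ⟨r, hr, h'⟩ | ⟨r, hr, h'⟩
    · exact ⟨r, hr, Or.inl h'⟩
    · exact ⟨r, hr, Or.inr h'⟩
  · intro h q hq
    obtain ⟨r, hr, h' | h'⟩ := h q hq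
    · exact Or.inl ⟨r, hr, h'⟩
    · exact Or.inr ⟨r, hr, h'⟩

theorem down_HasFullSize {X : Type v} (A : X → Set P) : Down (HasFullSize A) := down_fex _

/-- A subset of `ω` of full size is infinite. -/
theorem exists_mem_ge {B : ℕ → Set P} {p : P} (hp : p ∈ HasFullSize B) (m : ℕ) :
    ∃ r ≤ p, ∃ n, m ≤ n ∧ r ∈ meets (B n) := by
  obtain ⟨q, hq, R, hR1, hR2, hR3⟩ := mem_fex.1 hp p le_rfl
  by_contra hcon
  push Not at hcon
  have hdec : ∀ k : ℕ, ∃ r ≤ q, ∃ f : ℕ → ℕ, ∀ i < k, r ∈ meets (R i (f i)) ∧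
      r ∈ meets (B (f i)) := by
    intro k
    induction k with
    | zero => exact ⟨q, le_rfl, id, fun i hi => absurd hi (Nat.not_lt_zero i)⟩
    | succ k ih =>
      obtain ⟨r, hr, f, hf⟩ := ih
      obtain ⟨r1, hr1, y, hy⟩ := mem_fex.1 (hR1.1 k) r hr
      obtain ⟨r2, hr2, h2⟩ := mem_fimp.1 (hR3 k y) r1 (hr1.trans hr) hy
      refine ⟨r2, hr2.trans (hr1.trans hr), Function.update f k y, fun i hi => ?_⟩
      rcases Nat.lt_succ_iff_lt_or_eq.1 hi with hi' | rfl
      · rw [Function.update_of_ne hi'.ne]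
        exact ⟨down_meets _ _ (hf i hi').1 _ (hr2.trans hr1),
          down_meets _ _ (hf i hi').2 _ (hr2.trans hr1)⟩
      · rw [Function.update_self]
        exact ⟨down_meets _ _ hy _ hr2, h2⟩
  obtain ⟨r, hr, f, hf⟩ := hdec (m + 1)
  have hlt : ∀ i ∈ Finset.range (m + 1), f i ∈ Finset.range m := by
    intro i hi
    by_contra hge
    exact hcon r (hr.trans hq) (f i) (not_lt.1 fun h => hge (Finset.mem_range.2 h))
      (hf i (Finset.mem_range.1 hi)).2
  obtain ⟨i, hi, j, hj, hij, hfij⟩ :=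
    Finset.exists_ne_map_eq_of_card_lt_of_maps_to (by simp) hlt
  have hi' := (hf i (Finset.mem_range.1 hi)).1
  have hj' := (hf j (Finset.mem_range.1 hj)).1
  rw [← hfij] at hj'
  obtain ⟨_, _, h'⟩ := mem_fimp.1 (hR2 i j (f i)) r hr ⟨hi', hj'⟩
  exact hij h'

/-- If among uncountably many conditions there are always two compatible ones, then a set of full
size in an uncountable set `X` is not contained in a countable set of the ground model. -/
theorem exists_mem_notMem {X : Type v} (hX : ¬ Countable X)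
    (hccc : ∀ (Y : Set X) (f : Y → P), ¬ Y.Countable → ∃ y y', y ≠ y' ∧ ∃ s, s ≤ f y ∧ s ≤ f y')
    {A : X → Set P} {p : P} (hp : p ∈ HasFullSize A) {Z : Set X} (hZ : Z.Countable) :
    ∃ r ≤ p, ∃ x, x ∉ Z ∧ r ∈ meets (A x) := by
  obtain ⟨q, hq, R, hR1, hR2, hR3⟩ := mem_fex.1 hp p le_rfl
  by_contra hcon
  push Not at hcon
  have h1 : ∀ x : X, ∃ r ≤ q, ∃ y ∈ Z, r ∈ meets (R x y) := by
    intro x
    obtain ⟨r, hr, y, hy⟩ := IsFun.total hR1 x
    obtain ⟨r2, hr2, h2⟩ := mem_fimp.1 (hR3 x y) r hr hy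
    refine ⟨r, hr, y, ?_, hy⟩
    by_contra hyZ
    exact hcon r2 (hr2.trans (hr.trans hq)) y hyZ h2
  choose g hg y hy hgy using h1
  have h2 : ∃ z ∈ Z, ¬ {x | y x = z}.Countable := by
    by_contra hc
    push Not at hc
    apply hX
    have h3 : (Set.univ : Set X) ⊆ ⋃ z ∈ Z, {x | y x = z} := by
      intro x _
      exact mem_iUnion₂.2 ⟨y x, hy x, rfl⟩
    exact Set.countable_univ_iff.1 ((hZ.biUnion hc).mono h3)
  obtain ⟨z, _, hz⟩ := h2
  obtain ⟨x, x', hne, s, hs1, hs2⟩ := hccc _ (fun x : {x | y x = z} => g x.1) hz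
  apply hne
  apply Subtype.ext
  have hx : y x.1 = z := x.2
  have hx' : y x'.1 = z := x'.2
  refine IsInj.eq (down_IsInj R q hR2 s (hs1.trans (hg _))) (y := z) ?_ ?_
  · exact (congrArg (fun t => s ∈ meets (R x.1 t)) hx).mp (down_meets _ _ (hgy x.1) _ hs1)
  · exact (congrArg (fun t => s ∈ meets (R x'.1 t)) hx').mp (down_meets _ _ (hgy x'.1) _ hs2)

end

/-! ### Random forcing -/

/-- The measure of the fair coin. -/
noncomputable def coin : Measure Bool := (2 : ℝ≥0∞)⁻¹ • Measure.count

instance : IsProbabilityMeasure coin := ⟨by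
  have h : Measure.count (Set.univ : Set Bool) = 2 := by
    rw [Measure.count_univ]; simp
  simp only [coin, Measure.smul_apply, h, smul_eq_mul]
  exact ENNReal.inv_mul_cancel (by norm_num) (by norm_num)⟩

theorem coin_singleton (b : Bool) : coin {b} = 2⁻¹ := by
  simp [coin]

/-- The product measure on `2 ^ (Λ × ω)`. -/
noncomputable def cube (Λ : Type u) : Measure (Λ × ℕ → Bool) := Measure.infinitePi fun _ => coin

instance (Λ : Type u) : IsProbabilityMeasure (cube Λ) := by unfold cube; infer_instance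

/-- Random forcing (for adding `|Λ|` random reals): the measurable subsets of `2 ^ (Λ × ω)` which
do not have measure zero; `A ≤ B` if `A` is contained in `B` up to a set of measure zero. -/
structure RandomForcing (Λ : Type u) : Type u where
  /-- the set -/
  val : Set (Λ × ℕ → Bool)
  /-- it is measurable -/
  meas : MeasurableSet val
  /-- it does not have measure zero -/
  pos : cube Λ val ≠ 0

instance (Λ : Type u) : Preorder (RandomForcing Λ) where
  le A B := cube Λ (A.1 \ B.1) = 0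
  le_refl A := by simp
  le_trans A B C h1 h2 := by
    refine measure_mono_null (t := (A.1 \ B.1) ∪ (B.1 \ C.1)) ?_ (measure_union_null h1 h2)
    rintro x ⟨hx, hx'⟩
    by_cases h : x ∈ B.1
    · exact Or.inr ⟨h, hx'⟩
    · exact Or.inl ⟨hx, h⟩

variable {Λ : Type u}

theorem le_def {A B : RandomForcing Λ} : A ≤ B ↔ cube Λ (A.1 \ B.1) = 0 := Iff.rfl

theorem measure_inter_ne {A B : Set (Λ × ℕ → Bool)} (h : cube Λ (A \ B) = 0)
    (hA : cube Λ A ≠ 0) : cube Λ (A ∩ B) ≠ 0 := by
  intro h'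
  apply hA
  rw [← Set.inter_union_sdiff A B]
  exact measure_union_null h' h

/-- uncountably many conditions are not pairwise incompatible -/
theorem ccc {Y : Type v} (f : Y → RandomForcing Λ) (hY : ¬ Countable Y) :
    ∃ y y', y ≠ y' ∧ ∃ s, s ≤ f y ∧ s ≤ f y' := by
  by_contra hcon
  push Not at hcon
  apply hY
  have h1 : Pairwise fun y y' => AEDisjoint (cube Λ) (f y).1 (f y').1 := by
    intro y y' hne
    by_contra h
    have h2 : cube Λ ((f y).1 ∩ (f y').1) ≠ 0 := h
    refine hcon y y' hne ⟨(f y).1 ∩ (f y').1, (f y).2.inter (f y').2, h2⟩ ?_ ?_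
    · show cube Λ _ = 0
      rw [Set.sdiff_eq_empty.2 Set.inter_subset_left, measure_empty]
    · show cube Λ _ = 0
      rw [Set.sdiff_eq_empty.2 Set.inter_subset_right, measure_empty]
  have h2 := Measure.countable_meas_pos_of_disjoint_iUnion₀ (μ := cube Λ)
    (As := fun y => (f y).1) (fun y => (f y).2.nullMeasurableSet) h1
  have h3 : {i | 0 < cube Λ (f i).1} = Set.univ := by
    ext i
    simp only [mem_univ, iff_true]
    exact pos_iff_ne_zero.2 (f i).3
  rw [h3] at h2
  exact Set.countable_univ_iff.1 h2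

/-- Boolean values are represented by measurable sets. -/
theorem exists_bval (D : Set (RandomForcing Λ)) (hD : Down D) :
    ∃ b : Set (Λ × ℕ → Bool), MeasurableSet b ∧ (∀ s ∈ D, cube Λ (s.1 \ b) = 0) ∧
      ∀ r : RandomForcing Λ, cube Λ (r.1 ∩ b) ≠ 0 → ∃ s ≤ r, s ∈ D := by
  obtain ⟨F, hF⟩ := zorn_subset {F : Set (Set (Λ × ℕ → Bool)) |
    (∀ t ∈ F, ∃ h : MeasurableSet t ∧ cube Λ t ≠ 0, (⟨t, h.1, h.2⟩ : RandomForcing Λ) ∈ D) ∧
    ∀ t ∈ F, ∀ t' ∈ F, t ≠ t' → Disjoint t t'} (by
      intro c hc hchain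
      refine ⟨⋃₀ c, ⟨?_, ?_⟩, fun s hs => Set.subset_sUnion_of_mem hs⟩
      · rintro t ⟨s, hs, ht⟩
        exact (hc hs).1 t ht
      · rintro t ⟨s, hs, ht⟩ t' ⟨s', hs', ht'⟩ hne
        rcases hchain.total hs hs' with h | h
        · exact (hc hs').2 t (h ht) t' ht' hne
        · exact (hc hs).2 t ht t' (h ht') hne)
  have hFc : F.Countable := by
    have h2 := Measure.countable_meas_pos_of_disjoint_iUnion (μ := cube Λ)
      (As := fun t : F => t.1) (fun t => (hF.prop.1 t.1 t.2).1.1)
      (fun t t' hne => hF.prop.2 t.1 t.2 t'.1 t'.2 (fun h => hne (Subtype.ext h)))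
    have h3 : {i : F | 0 < cube Λ i.1} = Set.univ := by
      ext i
      simp only [mem_univ, iff_true]
      exact pos_iff_ne_zero.2 (hF.prop.1 i.1 i.2).1.2
    rw [h3] at h2
    exact Set.countable_univ_iff.1 h2
  have hbm : MeasurableSet (⋃₀ F) := MeasurableSet.sUnion hFc fun t ht => (hF.prop.1 t ht).1.1
  refine ⟨⋃₀ F, hbm, fun s hs => ?_, fun r hr => ?_⟩
  · by_contra hne
    have hs' : (⟨s.1 \ ⋃₀ F, s.2.diff hbm, hne⟩ : RandomForcing Λ) ∈ D := by
      refine hD s hs _ ?_
      show cube Λ _ = 0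
      rw [Set.sdiff_eq_empty.2 Set.sdiff_subset, measure_empty]
    have hmem : insert (s.1 \ ⋃₀ F) F ∈ {F : Set (Set (Λ × ℕ → Bool)) |
        (∀ t ∈ F, ∃ h : MeasurableSet t ∧ cube Λ t ≠ 0, (⟨t, h.1, h.2⟩ : RandomForcing Λ) ∈ D) ∧
        ∀ t ∈ F, ∀ t' ∈ F, t ≠ t' → Disjoint t t'} := by
      constructor
      · rintro t (rfl | ht)
        · exact ⟨⟨s.2.diff hbm, hne⟩, hs'⟩
        · exact hF.prop.1 t ht
      · rintro t (rfl | ht) t' (rfl | ht') hne'
        · exact absurd rfl hne'
        · exact Set.disjoint_left.2 fun x hx hx' => hx.2 ⟨t', ht', hx'⟩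
        · exact Set.disjoint_left.2 fun x hx hx' => hx'.2 ⟨t, ht, hx⟩
        · exact hF.prop.2 t ht t' ht' hne'
    have hin : s.1 \ ⋃₀ F ∈ F :=
      hF.le_of_ge hmem (Set.subset_insert _ F) (Set.mem_insert _ F)
    apply hne
    have : s.1 \ ⋃₀ F = ∅ := by
      ext x
      simp only [mem_empty_iff_false, iff_false]
      intro hx
      exact hx.2 ⟨_, hin, hx⟩
    rw [this, measure_empty]
  · have h1 : ∃ t ∈ F, cube Λ (r.1 ∩ t) ≠ 0 := by
      by_contra hcon
      push Not at hcon
      apply hr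
      rw [Set.sUnion_eq_biUnion, Set.inter_iUnion₂]
      exact (measure_biUnion_null_iff hFc).2 hcon
    obtain ⟨t, ht, hrt⟩ := h1
    obtain ⟨h, htD⟩ := hF.prop.1 t ht
    refine ⟨⟨r.1 ∩ t, r.2.inter h.1, hrt⟩, ?_, hD _ htD _ ?_⟩
    · show cube Λ _ = 0
      rw [Set.sdiff_eq_empty.2 Set.inter_subset_left, measure_empty]
    · show cube Λ _ = 0
      rw [Set.sdiff_eq_empty.2 Set.inter_subset_right, measure_empty]

/-- restriction to the coordinates `C × ω` -/
def rs (C : Set Λ) (x : Λ × ℕ → Bool) : {p : Λ × ℕ // p.1 ∈ C} → Bool := fun j => x j.1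

theorem measurable_rs (C : Set Λ) : Measurable (rs C) :=
  measurable_pi_lambda _ fun j => measurable_pi_apply j.1

/-- every measurable set depends on countably many coordinates -/
theorem exists_support (b : Set (Λ × ℕ → Bool)) (hb : MeasurableSet b) :
    ∃ C : Set Λ, C.Countable ∧ MeasurableSet[MeasurableSpace.comap (rs C) inferInstance] b := by
  have hmono : ∀ C C' : Set Λ, C ⊆ C' → MeasurableSpace.comap (rs C) inferInstance ≤
      MeasurableSpace.comap (rs C') inferInstance := by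
    intro C C' h
    have h1 : rs C = (fun (y : {p : Λ × ℕ // p.1 ∈ C'} → Bool) (j : {p : Λ × ℕ // p.1 ∈ C}) =>
        y ⟨j.1, h j.2⟩) ∘ rs C' := rfl
    rw [h1, ← MeasurableSpace.comap_comp]
    apply MeasurableSpace.comap_mono
    apply Measurable.comap_le
    exact measurable_pi_lambda _ fun j => measurable_pi_apply _
  let m' : MeasurableSpace (Λ × ℕ → Bool) :=
    { MeasurableSet' := fun b => ∃ C : Set Λ, C.Countable ∧
        MeasurableSet[MeasurableSpace.comap (rs C) inferInstance] b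
      measurableSet_empty := ⟨∅, countable_empty,
        @MeasurableSet.empty _ (MeasurableSpace.comap (rs ∅) inferInstance)⟩
      measurableSet_compl := by
        rintro s ⟨C, hC, h⟩
        exact ⟨C, hC, @MeasurableSet.compl _ _ (MeasurableSpace.comap (rs C) inferInstance) h⟩
      measurableSet_iUnion := by
        intro f hf
        choose C hC hf using hf
        exact ⟨⋃ n, C n, countable_iUnion hC,
          @MeasurableSet.iUnion _ _ (MeasurableSpace.comap (rs (⋃ n, C n)) inferInstance) _ _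
            fun n => hmono _ _ (subset_iUnion C n) _ (hf n)⟩ }
  have hle : (MeasurableSpace.pi : MeasurableSpace (Λ × ℕ → Bool)) ≤ m' := by
    refine iSup_le fun i => ?_
    intro s hs
    refine ⟨{i.1}, countable_singleton _, ?_⟩
    obtain ⟨t, ht, rfl⟩ := hs
    refine ⟨(fun y : {p : Λ × ℕ // p.1 ∈ ({i.1} : Set Λ)} → Bool => y ⟨i, rfl⟩) ⁻¹' t, ?_, rfl⟩
    exact (measurable_pi_apply _) ht
  exact hle _ hb

end Pool.Agent.H458R3.Rand
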