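import Pool.Agent.H458R3.RandA

/-!
# Adding random reals destroys the strong polarized relation
-/

namespace Pool.Agent.H458R3.Rand

open MeasureTheory Measure ProbabilityTheory Set Cardinal
open Pool.Agent.Helper669.Forcing
open scoped ENNReal

universe u v w

variable {Λ : Type u}

/-- the coordinates of the random real `α` -/
def co (α : Λ) (x : Λ × ℕ → Bool) : ℕ → Bool := fun n => x (α, n)

theorem measurable_co (α : Λ) : Measurable (co α) :=
  measurable_pi_lambda _ fun n => measurable_pi_apply (α, n)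

theorem indep (C : Set Λ) (α : Λ) (hα : α ∉ C) : IndepFun (rs C) (co α) (cube Λ) := by
  have h1 : iIndepFun (fun (i : Λ × ℕ) (x : Λ × ℕ → Bool) => x i) (cube Λ) :=
    iIndepFun_infinitePi (X := fun _ y => y) (fun _ => measurable_id)
  have h2 := indep_iSup_of_disjoint (fun i => (measurable_pi_apply i).comap_le) h1
    (S := {p | p.1 ∈ C}) (T := {p | p.1 = α}) (by
      rw [Set.disjoint_left]
      intro p hp hp'
      have h3 : p.1 ∈ C := hp
      have h4 : p.1 = α := hp'
      exact hα (h4 ▸ h3))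
  have h5 : MeasurableSpace.comap (rs C) inferInstance ≤
      ⨆ i ∈ {p : Λ × ℕ | p.1 ∈ C}, MeasurableSpace.comap
        (fun x : Λ × ℕ → Bool => x i) inferInstance := by
    show MeasurableSpace.comap (rs C) (⨆ j, _) ≤ _
    rw [MeasurableSpace.comap_iSup]
    refine iSup_le fun j => ?_
    rw [MeasurableSpace.comap_comp]
    exact le_iSup₂_of_le j.1 j.2 le_rfl
  have h6 : MeasurableSpace.comap (co α) inferInstance ≤
      ⨆ i ∈ {p : Λ × ℕ | p.1 = α}, MeasurableSpace.comap
        (fun x : Λ × ℕ → Bool => x i) inferInstance := by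
    show MeasurableSpace.comap (co α) (⨆ j, _) ≤ _
    rw [MeasurableSpace.comap_iSup]
    refine iSup_le fun j => ?_
    rw [MeasurableSpace.comap_comp]
    exact le_iSup₂_of_le (α, j) rfl le_rfl
  exact indep_of_indep_of_le_left (indep_of_indep_of_le_right h2 h6) h5

/-- a random real is not constant on an infinite set of the ground model -/
theorem null_section (α : Λ) (i : Bool) (N : Set ℕ) (hN : ∀ m, ∃ n, m ≤ n ∧ n ∈ N) :
    (cube Λ).map (co α) {w | ∀ n ∈ N, w n = i} = 0 := by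
  classical
  have hNi : N.Infinite := by
    rw [Set.infinite_iff_exists_gt]
    intro m
    obtain ⟨n, hn, hn'⟩ := hN (m + 1)
    exact ⟨n, hn', by omega⟩
  have hmeas : MeasurableSet {w : ℕ → Bool | ∀ n ∈ N, w n = i} := by
    have : {w : ℕ → Bool | ∀ n ∈ N, w n = i} = ⋂ n ∈ N, (fun w : ℕ → Bool => w n) ⁻¹' {i} := by
      ext w; simp
    rw [this]
    exact MeasurableSet.biInter (Set.to_countable _) fun n _ =>
      measurable_pi_apply n (measurableSet_singleton i)
  rw [Measure.map_apply (measurable_co α) hmeas]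
  have hk : ∀ k : ℕ, cube Λ (co α ⁻¹' {w | ∀ n ∈ N, w n = i}) ≤ (2⁻¹ : ℝ≥0∞) ^ k := by
    intro k
    obtain ⟨F, hF, hFk⟩ := hNi.exists_subset_card_eq k
    have h1 : co α ⁻¹' {w | ∀ n ∈ N, w n = i} ⊆
        Set.pi (↑(F.image fun n => (α, n)) : Set (Λ × ℕ)) fun _ => {i} := by
      intro x hx p hp
      simp only [Finset.coe_image, Set.mem_image, Finset.mem_coe] at hp
      obtain ⟨n, hn, rfl⟩ := hp
      exact hx n (hF hn)
    refine (measure_mono h1).trans ?_
    unfold cube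
    rw [infinitePi_pi _ (fun _ _ => measurableSet_singleton i)]
    simp only [coin_singleton, Finset.prod_const]
    rw [Finset.card_image_of_injective _ (fun a b h => (Prod.mk.inj h).2), hFk]
  have hlim : Filter.Tendsto (fun k : ℕ => (2⁻¹ : ℝ≥0∞) ^ k) Filter.atTop (nhds 0) :=
    ENNReal.tendsto_pow_atTop_nhds_zero_of_lt_one (by norm_num)
  exact le_antisymm (ge_of_tendsto' hlim hk) bot_le

theorem null_set (C : Set Λ) (α : Λ) (hα : α ∉ C) (i : Bool) (b : ℕ → Set (Λ × ℕ → Bool))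
    (hb : ∀ n, MeasurableSet[MeasurableSpace.comap (rs C) inferInstance] (b n)) :
    cube Λ {x | (∀ m, ∃ n, m ≤ n ∧ x ∈ b n) ∧ ∀ n, x ∈ b n → x (α, n) = i} = 0 := by
  choose b' hb' hbb' using hb
  let Z : Set (({p : Λ × ℕ // p.1 ∈ C} → Bool) × (ℕ → Bool)) :=
    {p | (∀ m, ∃ n, m ≤ n ∧ p.1 ∈ b' n) ∧ ∀ n, p.1 ∈ b' n → p.2 n = i}
  have hZ : MeasurableSet Z := by
    have h1 : Z = (⋂ m, ⋃ n, ⋃ _ : m ≤ n, Prod.fst ⁻¹' b' n) ∩
        ⋂ n, ((Prod.fst ⁻¹' b' n)ᶜ ∪ (fun p : ({p : Λ × ℕ // p.1 ∈ C} → Bool) × (ℕ → Bool) =>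
          p.2 n) ⁻¹' {i}) := by
      ext p
      simp only [Z, Set.mem_inter_iff, Set.mem_iInter, Set.mem_iUnion, Set.mem_preimage,
        Set.mem_union, Set.mem_compl_iff, Set.mem_singleton_iff, Set.mem_ofPred_eq, exists_prop,
        imp_iff_not_or]
    rw [h1]
    refine MeasurableSet.inter ?_ ?_
    · exact MeasurableSet.iInter fun m => MeasurableSet.iUnion fun n => MeasurableSet.iUnion
        fun _ => measurable_fst (hb' n)
    · exact MeasurableSet.iInter fun n => (measurable_fst (hb' n)).compl.union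
        (((measurable_pi_apply n).comp measurable_snd) (measurableSet_singleton i))
  have h2 : {x | (∀ m, ∃ n, m ≤ n ∧ x ∈ b n) ∧ ∀ n, x ∈ b n → x (α, n) = i} =
      (fun x => (rs C x, co α x)) ⁻¹' Z := by
    ext x
    simp only [Z, Set.mem_preimage, Set.mem_ofPred_eq, ← hbb']
    rfl
  rw [h2, ← Measure.map_apply ((measurable_rs C).prodMk (measurable_co α)) hZ,
    (indepFun_iff_map_prod_eq_prod_map_map (measurable_rs C).aemeasurable
      (measurable_co α).aemeasurable).1 (indep C α hα)]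
  have : IsProbabilityMeasure ((cube Λ).map (rs C)) :=
    Measure.isProbabilityMeasure_map (measurable_rs C).aemeasurable
  have : IsProbabilityMeasure ((cube Λ).map (co α)) :=
    Measure.isProbabilityMeasure_map (measurable_co α).aemeasurable
  rw [Measure.measure_prod_null hZ]
  refine Filter.Eventually.of_forall fun y => ?_
  show (cube Λ).map (co α) (Prod.mk y ⁻¹' Z) = 0
  by_cases hy : ∀ m, ∃ n, m ≤ n ∧ y ∈ b' n
  · have h3 : Prod.mk y ⁻¹' Z = {w | ∀ n ∈ {n | y ∈ b' n}, w n = i} := by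
      ext w
      simp only [Z, Set.mem_preimage, Set.mem_ofPred_eq]
      exact ⟨fun h => h.2, fun h => ⟨hy, h⟩⟩
    rw [h3]
    exact null_section α i _ hy
  · have h3 : Prod.mk y ⁻¹' Z = ∅ := by
      ext w
      simp only [Z, Set.mem_preimage, Set.mem_ofPred_eq, mem_empty_iff_false, iff_false]
      exact fun h => hy h.1
    rw [h3, measure_empty]

/-- the condition that `x (α, n) = i` -/
theorem cyl_ne (α : Λ) (n : ℕ) (i : Bool) :
    MeasurableSet {x : Λ × ℕ → Bool | x (α, n) = i} ∧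
      cube Λ {x : Λ × ℕ → Bool | x (α, n) = i} ≠ 0 := by
  classical
  refine ⟨(measurable_pi_apply (X := fun _ : Λ × ℕ => Bool) (α, n)) (measurableSet_singleton i), ?_⟩
  have h1 : {x : Λ × ℕ → Bool | x (α, n) = i} =
      Set.pi (↑({(α, n)} : Finset (Λ × ℕ)) : Set (Λ × ℕ)) fun _ => {i} := by
    ext x; simp
  rw [h1]
  unfold cube
  rw [infinitePi_pi _ (fun _ _ => measurableSet_singleton i)]
  simp [coin_singleton]

/-- Adding at least `|X|` random reals destroys the strong polarized relation `(|X|, ω)`. -/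
theorem not_polarized {X : Type v} (hX : ¬ Countable X) (ι : X → Λ) (hι : Function.Injective ι)
    (p : RandomForcing Λ) : p ∈ fnot (Polarized (RandomForcing Λ) X ℕ) := by
  classical
  let c : X → ℕ → Set (RandomForcing Λ) := fun x n =>
    {⟨{w | w (ι x, n) = true}, (cyl_ne (ι x) n true).1, (cyl_ne (ι x) n true).2⟩}
  have hc : ∀ (x : X) (n : ℕ) (r : RandomForcing Λ),
      r ∈ meets (c x n) ↔ cube Λ (r.1 ∩ {w | w (ι x, n) = false}) = 0 := by
    intro x n r
    have e1 : r.1 ∩ {w | w (ι x, n) = false} = r.1 \ {w | w (ι x, n) = true} := by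
      ext w; simp
    constructor
    · intro h
      by_contra hne
      rw [e1] at hne
      obtain ⟨s, hs, t, ht, hst⟩ := h ⟨r.1 \ {w | w (ι x, n) = true},
        r.2.diff (cyl_ne (ι x) n true).1, hne⟩ (by
          show cube Λ _ = 0
          rw [Set.sdiff_eq_empty.2 Set.sdiff_subset, measure_empty])
      rw [Set.mem_singleton_iff] at ht
      subst ht
      have h1 : cube Λ (s.1 \ (r.1 \ {w | w (ι x, n) = true})) = 0 := hs
      have h2 : cube Λ (s.1 \ {w | w (ι x, n) = true}) = 0 := hst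
      apply s.3
      refine measure_mono_null ?_ (measure_union_null h1 h2)
      intro w hw
      by_cases h3 : w (ι x, n) = true
      · exact Or.inl ⟨hw, fun h => h.2 h3⟩
      · exact Or.inr ⟨hw, h3⟩
    · intro h q hq
      refine ⟨q, le_rfl, _, rfl, ?_⟩
      rw [e1] at h
      exact le_trans (show q ≤ r from hq) h
  intro q0 _ hpol
  obtain ⟨q1, hq1, A, hA⟩ := mem_fex.1 (hpol c) q0 le_rfl
  obtain ⟨q2, hq2, B, hAsize, hBsize, hhom⟩ := mem_fex.1 hA q1 le_rfl
  obtain ⟨q3, hq3, h3⟩ := mem_for.1 hhom q2 le_rfl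
  choose b hbm hb1 hb2 using fun n => exists_bval (meets (B n)) (down_meets (B n))
  choose C hC hbC using fun n => exists_support (b n) (hbm n)
  have hCc : (⋃ n, C n).Countable := countable_iUnion hC
  have hZc : (ι ⁻¹' ⋃ n, C n).Countable := hCc.preimage hι
  obtain ⟨r, hr, x, hx, hrx⟩ := exists_mem_notMem hX
    (fun Y f hY => ccc f hY) (down_HasFullSize A _ hAsize _ hq3) hZc
  have hx' : ι x ∉ ⋃ n, C n := hx
  have hmono : ∀ n, MeasurableSet[MeasurableSpace.comap (rs (⋃ n, C n)) inferInstance] (b n) := by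
    intro n
    have h1 : rs (C n) = (fun (y : {p : Λ × ℕ // p.1 ∈ ⋃ n, C n} → Bool)
        (j : {p : Λ × ℕ // p.1 ∈ C n}) => y ⟨j.1, mem_iUnion.2 ⟨n, j.2⟩⟩) ∘
          rs (⋃ n, C n) := rfl
    have h2 : MeasurableSpace.comap (rs (C n)) inferInstance ≤
        MeasurableSpace.comap (rs (⋃ n, C n)) inferInstance := by
      rw [h1, ← MeasurableSpace.comap_comp]
      apply MeasurableSpace.comap_mono
      apply Measurable.comap_le
      exact measurable_pi_lambda _ fun j => measurable_pi_apply _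
    exact h2 _ (hbC n)
  -- the set named by `B` is infinite
  have hinf : cube Λ (r.1 \ {w | ∀ m, ∃ n, m ≤ n ∧ w ∈ b n}) = 0 := by
    have h1 : r.1 \ {w | ∀ m, ∃ n, m ≤ n ∧ w ∈ b n} =
        ⋃ m, r.1 \ ⋃ n, ⋃ _ : m ≤ n, b n := by
      ext w
      simp only [Set.mem_sdiff, Set.mem_ofPred_eq, Set.mem_iUnion, not_forall, not_exists,
        exists_prop, not_and]
      tauto
    rw [h1]
    refine measure_iUnion_null fun m => ?_
    by_contra hne
    have hmeas : MeasurableSet (⋃ n, ⋃ _ : m ≤ n, b n) :=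
      MeasurableSet.iUnion fun n => MeasurableSet.iUnion fun _ => hbm n
    have hle : (⟨r.1 \ ⋃ n, ⋃ _ : m ≤ n, b n, r.2.diff hmeas, hne⟩ : RandomForcing Λ) ≤ r := by
      show cube Λ _ = 0
      rw [Set.sdiff_eq_empty.2 Set.sdiff_subset, measure_empty]
    obtain ⟨s, hs, n, hn, hsn⟩ := exists_mem_ge
      (down_HasFullSize B _ hBsize _ (hle.trans (hr.trans hq3))) m
    have h4 : cube Λ (s.1 \ (r.1 \ ⋃ n, ⋃ _ : m ≤ n, b n)) = 0 := hs
    have h5 := hb1 n s hsn
    apply s.3
    refine measure_mono_null ?_ (measure_union_null h4 h5)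
    intro w hw
    by_cases h6 : w ∈ b n
    · refine Or.inl ⟨hw, fun h => h.2 ?_⟩
      exact Set.mem_iUnion₂.2 ⟨n, hn, h6⟩
    · exact Or.inr ⟨hw, h6⟩
  -- the colour is constant
  have hcol : ∃ i : Bool, ∀ n, cube Λ (r.1 ∩ b n ∩ {w | w (ι x, n) = !i}) = 0 := by
    have hmem : ∀ (s : RandomForcing Λ) n, s.1 ⊆ r.1 → s.1 ⊆ b n →
        s ≤ r ∧ s ∈ meets (A x) ∧ s ∈ meets (B n) := by
      intro s n hsr hsb
      have h1 : s ≤ r := by
        show cube Λ _ = 0
        rw [Set.sdiff_eq_empty.2 hsr, measure_empty]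
      refine ⟨h1, down_meets _ _ hrx _ h1, meets_of_dense fun q hq => ?_⟩
      have h2 : cube Λ (q.1 \ s.1) = 0 := hq
      have h4 : cube Λ (q.1 ∩ b n) ≠ 0 := by
        intro h5
        refine measure_inter_ne h2 q.3 (measure_mono_null ?_ h5)
        exact Set.inter_subset_inter_right _ hsb
      exact hb2 n q h4
    rcases h3 with h3 | h3
    · refine ⟨true, fun n => ?_⟩
      by_contra hne
      have hm : MeasurableSet (r.1 ∩ b n ∩ {w | w (ι x, n) = !true}) :=
        (r.2.inter (hbm n)).inter (cyl_ne (ι x) n _).1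
      obtain ⟨h4, h5, h6⟩ := hmem ⟨_, hm, hne⟩ n (fun w hw => hw.1.1) (fun w hw => hw.1.2)
      obtain ⟨t, ht, ht'⟩ := mem_fimp.1 (h3 x n) _ (h4.trans hr) ⟨h5, h6⟩
      rw [hc] at ht'
      have h7 : cube Λ (t.1 \ (r.1 ∩ b n ∩ {w | w (ι x, n) = !true})) = 0 := ht
      apply t.3
      refine measure_mono_null ?_ (measure_union_null h7 ht')
      intro w hw
      by_cases h8 : w (ι x, n) = false
      · exact Or.inr ⟨hw, h8⟩
      · exact Or.inl ⟨hw, fun h => h8 h.2⟩
    · refine ⟨false, fun n => ?_⟩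
      by_contra hne
      have hm : MeasurableSet (r.1 ∩ b n ∩ {w | w (ι x, n) = !false}) :=
        (r.2.inter (hbm n)).inter (cyl_ne (ι x) n _).1
      obtain ⟨h4, h5, h6⟩ := hmem ⟨_, hm, hne⟩ n (fun w hw => hw.1.1) (fun w hw => hw.1.2)
      obtain ⟨t, ht, ht'⟩ := mem_fimp.1 (h3 x n) _ (h4.trans hr) ⟨h5, h6⟩
      apply ht' t le_rfl
      rw [hc]
      have h7 : cube Λ (t.1 \ (r.1 ∩ b n ∩ {w | w (ι x, n) = !false})) = 0 := ht
      refine measure_mono_null ?_ h7
      rintro w ⟨hw, h8⟩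
      refine ⟨hw, fun h => ?_⟩
      have h9 : w (ι x, n) = !false := h.2
      have h8 : w (ι x, n) = false := h8
      rw [h8] at h9
      exact absurd h9 (by decide)
  obtain ⟨i, hi⟩ := hcol
  apply r.3
  have hnull := null_set (⋃ n, C n) (ι x) hx' i b hmono
  have h4 : cube Λ (⋃ n, r.1 ∩ b n ∩ {w | w (ι x, n) = !i}) = 0 := measure_iUnion_null hi
  refine measure_mono_null ?_ (measure_union_null (measure_union_null hinf h4) hnull)
  intro w hw
  by_cases h5 : ∀ m, ∃ n, m ≤ n ∧ w ∈ b n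
  · by_cases h6 : ∀ n, w ∈ b n → w (ι x, n) = i
    · exact Or.inr ⟨h5, h6⟩
    · push Not at h6
      obtain ⟨n, h6, h7⟩ := h6
      refine Or.inl (Or.inr (Set.mem_iUnion.2 ⟨n, ⟨hw, h6⟩, ?_⟩))
      show w (ι x, n) = !i
      exact Bool.eq_not_of_ne h7
  · exact Or.inl (Or.inl ⟨hw, h5⟩)

end Pool.Agent.H458R3.Rand
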